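import Pool.Agent.H44.EQ.Glue
import Pool.Agent.H13.EQ.NC2
import Pool.Agent.H14.EQ.CFG
import Pool.Agent.H19.EQ.CMP
import Pool.Agent.H19.EQ.CONN
import Pool.Agent.H19.EQ.LIN
import Pool.Agent.H19.EQ.LMT
import Pool.Agent.H19.EQ.TO1
import Pool.Agent.H21.EQ.CNG
import Pool.Agent.H3.EQ.JNE
import Pool.Agent.H3.EQ.ORD
import Pool.Agent.H37.EQ.JEX
import Pool.Agent.H49.EQ.ALW
import Pool.Agent.H51.EQ.TWO
import Pool.Agent.H60.EQ.LTR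
import Pool.Agent.H60.EQ.MIN
import Pool.Agent.H86.EQ.HHH
import Pool.Agent.H95.EQ.EQV
import Pool.Agent.H91.EQ.CHN
import Pool.Agent.H91.EQ.SEP
import Pool.Agent.H98.EQ.TRF
import Pool.Agent.H18.EQ.CAS
import Pool.Agent.H44.EQ.TO2
import Pool.Agent.H92.NR.NR2
import Pool.Agent.H92.NR.STP
import Pool.Agent.H65.NR.NR3
import Pool.Agent.H65.NR.NRI
import Pool.Agent.H56.NR.ITR
import Pool.Agent.H56.NR.RSS
import Pool.Agent.H35.NR.PCT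
import Pool.Agent.H39.NR.LIN

/-!
# The binary injection: all the parts
-/

set_option autoImplicit false

namespace Pool.Agent.H44.EQ

open Pool.Agent.H68.BP Pool.Agent.H58.SF Pool.Agent.H53.GC

theorem all_NR3 : Pool.Agent.H53.NR.T_NR3 :=
  Pool.Agent.H65.NR.NR3.pf_NR3 (Pool.Agent.H65.NR.NRI.pf_NRI (Pool.Agent.H92.NR.pf_NR2
    Pool.Agent.H56.NR.pf_RSS (Pool.Agent.H35.NR.pf_PCT (Pool.Agent.H56.NR.pf_ITR
    Pool.Agent.H92.NR.pf_STP)) Pool.Agent.H39.NR.pf_LIN))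

theorem all_CFG : T_CFG := Pool.Agent.H14.EQ.pf_CFG

theorem all_RLZ : T_RLZ := Pool.Agent.H14.EQ.pf_RLZ

theorem all_EQV : T_EQV := Pool.Agent.H95.EQ.pf_EQV

theorem all_NC : T_NC :=
  asm_NC (Pool.Agent.H95.EQ.pf_NC1 all_CFG all_EQV) (Pool.Agent.H13.EQ.pf_NC2 all_CFG all_EQV)

theorem all_CMP : T_CMP := Pool.Agent.H19.EQ.pf_CMP all_RLZ

theorem all_ORD : T_ORD := Pool.Agent.H3.EQ.pf_ORD all_CFG

theorem all_JNE : T_JNE := Pool.Agent.H3.EQ.pf_JNE all_CFG all_NC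

theorem all_CHN : T_CHN := Pool.Agent.H91.EQ.pf_CHN all_CFG all_EQV

theorem all_SEP : T_SEP := Pool.Agent.H91.EQ.pf_SEP all_CFG all_EQV all_NC

theorem all_JEX : T_JEX := Pool.Agent.H37.EQ.pf_JEX all_CHN all_EQV

theorem all_INJ : T_INJ :=
  asm_INJ all_NC all_JEX all_JNE (Pool.Agent.H51.EQ.pf_TWO all_CFG all_CMP) all_SEP
    Pool.Agent.H60.EQ.pf_MIN all_CMP (Pool.Agent.H19.EQ.pf_CON all_CFG)
    (Pool.Agent.H60.EQ.pf_LTR all_CFG all_JNE) Pool.Agent.H18.EQ.pf_CAS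

theorem all_HHH : T_HHH := Pool.Agent.H86.EQ.pf_HHH Pool.Agent.H21.EQ.pf_CNG
  Pool.Agent.H98.EQ.pf_TRF

/-- The binary injection. -/
theorem all_NBV : T_NBV :=
  glue_NBV all_INJ Pool.Agent.H21.EQ.pf_CNG Pool.Agent.H98.EQ.pf_TRF Pool.Agent.H19.EQ.pf_LMT
    (Pool.Agent.H19.EQ.pf_LIN all_CFG all_EQV) (Pool.Agent.H19.EQ.pf_TO1
      Pool.Agent.H49.EQ.pf_ALW all_ORD) (pf_TO2 Pool.Agent.H49.EQ.pf_ALW all_ORD) all_RLZ all_NR3

/-- Blocks without common elements. -/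
theorem all_NNC : T_NNC := glue_NNC all_NC

/-- The canonical Olšák map. -/
theorem all_NOL : T_NOL := glue_NOL all_HHH all_RLZ all_NR3

end Pool.Agent.H44.EQ
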