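import Pool.Agent.H53.GC.Defs
import Pool.Agent.H53.NR.Defs

/-!
# First-order reducts of edge-coloured graphs with free amalgamation: definitions

`(V, <)` is a linear order, `c x y` is the colour of the pair of different elements `x, y`, it is
symmetric, and `N` is the free colour. Equality is allowed in the relations of `𝔸`: the type of the
pair `(x, y)` is `ceq c x y : Option X`, which is `none` if `x = y`.
-/

set_option autoImplicit false

namespace Pool.Agent.H44.EQ

open Pool.Agent.H68.BP Pool.Agent.H58.SF Pool.Agent.H53.GC Pool.Agent.H53.NR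
open Classical

section defs

variable {V X : Type} {σ : Sig}

/-- The type of a pair: `none` for equality. -/
noncomputable def ceq (c : V → V → X) (x y : V) : Option X := if x = y then none else some (c x y)

/-- The relations of `𝔸` are unions of types of tuples (equalities and colours). -/
def TypeClosed (𝔸 : Str σ V) (c : V → V → X) : Prop :=
  ∀ (l : Fin σ.m) (x y : Fin (σ.ar l) → V), 𝔸 l x →
    (∀ a b, ceq c (x a) (x b) = ceq c (y a) (y b)) → 𝔸 l y

/-- The hypotheses on the coloured order `(V, <, c)` and on the structure `𝔸`. -/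
structure SetE [LinearOrder V] (𝔸 : Str σ V) (M : ℕ) (c : V → V → X) (N : X) : Prop where
  fin : Finite X
  ne : Nonempty V
  three : 3 ≤ M
  sym : ∀ x y, c x y = c y x
  diag : ∀ x, c x x = N
  univ : Universal c (fun _ _ => N) M
  typ : TypeClosed 𝔸 c

/-- `𝔸` has a constant endomorphism. -/
def Const (𝔸 : Str σ V) : Prop := ∃ a : V, ∀ (l : Fin σ.m) (x : Fin (σ.ar l) → V), 𝔸 l x →
  𝔸 l (fun _ => a)

/-- `h v w` is the type of the pair of the values of a polymorphism of `𝔸` with the arguments `I`
at `v` and `w`. -/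
structure PolMap (𝔸 : Str σ V) (M : ℕ) (c : V → V → X) (I : Type)
    (h : (I → V) → (I → V) → Option X) : Prop where
  refl : ∀ v, h v v = none
  rel : ∀ (s : Option (Fin σ.m)) (v : Fin (arP σ M s) → I → V),
    (∀ i, relP 𝔸 M s (fun a => v a i)) →
    ∃ x, relP 𝔸 M s x ∧ ∀ a b, ceq c (x a) (x b) = h (v a) (v b)

/-- `h` depends only on types. -/
def TInv [LinearOrder V] (c : V → V → X) {I Z : Type} (h : (I → V) → (I → V) → Z) : Prop :=
  ∀ v w v' w' : I → V, SameType c (Sum.elim v w) (Sum.elim v' w') → h v w = h v' w'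

/-- `γ` is a binary polymorphism of `𝔸` on the elements `q a`. -/
def BinPol (𝔸 : Str σ V) {n : ℕ} (q : Fin n → V) (γ : Fin n × Fin n → V) : Prop :=
  ∀ (l : Fin σ.m) (a b : Fin (σ.ar l) → Fin n), 𝔸 l (fun i => q (a i)) → 𝔸 l (fun i => q (b i)) →
    𝔸 l (fun i => γ (a i, b i))

/-- On each finite set there is an injective binary polymorphism of `𝔸`. -/
def Inj2 (𝔸 : Str σ V) : Prop :=
  ∀ (n : ℕ) (q : Fin n → V), Function.Injective q →
    ∃ γ : Fin n × Fin n → V, BinPol 𝔸 q γ ∧ Function.Injective γ

/-- The blocks `z` and `z'` have the shape `κ` and lie in common zones: entries in the positions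
`l, l'` with `κ l < κ l'` are in this order, and they are free from each other. -/
structure ZA [LinearOrder V] (c : V → V → X) (N : X) (κ : Fin 6 → ℕ) (z z' : Fin 6 → V) :
    Prop where
  eq : ∀ l l', κ l = κ l' → z l = z l' ∧ z' l = z' l'
  lt : ∀ l l', κ l < κ l' → z l < z l' ∧ z l < z' l' ∧ z' l < z l' ∧ z' l < z' l'
  free : ∀ l l', κ l < κ l' →
    c (z l) (z l') = N ∧ c (z l) (z' l') = N ∧ c (z' l) (z l') = N ∧ c (z' l) (z' l') = N

/-- The positions in `J` determine the values of `h` on blocks of the shape `κ`. -/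
def JSet [LinearOrder V] (c : V → V → X) (N : X) (h : (Fin 6 → V) → (Fin 6 → V) → Option X)
    (κ : Fin 6 → ℕ) (J : Set (Fin 6)) : Prop :=
  ∀ z z', ZA c N κ z z' → (h z z' = none ↔ ∀ l ∈ J, z l = z' l)

/-- The combination of types given by `F` (both coordinates different), `lam` (the first coordinate
equal) and `rho` (the second coordinate equal). -/
noncomputable def comb (F : Prop → X → X → X) (lam rho : X → X) (s : Prop) :
    Option X → Option X → Option X
  | none, none => none
  | none, some t => some (lam t)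
  | some t, none => some (rho t)
  | some t, some t' => some (F s t t')

/-- `𝔸` has a binary injective polymorphism with the types `F`, `lam`, `rho`, where the first
argument of `F` says whether the orders agree. -/
def LinInj [LinearOrder V] (𝔸 : Str σ V) (M : ℕ) (c : V → V → X) (F : Prop → X → X → X)
    (lam rho : X → X) : Prop :=
  ∀ (s : Option (Fin σ.m)) (x y : Fin (arP σ M s) → V), relP 𝔸 M s x → relP 𝔸 M s y →
    ∃ z, relP 𝔸 M s z ∧ ∀ a b, ceq c (z a) (z b) =
      comb F lam rho (x a < x b ↔ y a < y b) (ceq c (x a) (x b)) (ceq c (y a) (y b))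

/-- tournaments on `V` -/
def Tou (o : V → V → Prop) : Prop := ∀ u v, u ≠ v → (o u v ↔ ¬ o v u)

/-- The same with arbitrary tournaments in place of the linear order. -/
def TouInj (𝔸 : Str σ V) (M : ℕ) (c : V → V → X) (F : Prop → X → X → X) (lam rho : X → X) :
    Prop :=
  ∀ (s : Option (Fin σ.m)) (x y : Fin (arP σ M s) → V) (o o' : V → V → Prop), Tou o → Tou o' →
    relP 𝔸 M s x → relP 𝔸 M s y →
    ∃ z, relP 𝔸 M s z ∧ ∀ a b, ceq c (z a) (z b) =
      comb F lam rho (o (x a) (x b) ↔ o' (y a) (y b)) (ceq c (x a) (x b)) (ceq c (y a) (y b))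

/-- `w` is a cyclic polymorphism of the injective part of `𝔸`. -/
structure CycPol (𝔸 : Str σ V) (M : ℕ) (c : V → V → X) (p : ℕ) (w : (ZMod p → X) → X) :
    Prop where
  cyc : ∀ t, w (fun i => t (i + 1)) = w t
  rel : ∀ (s : Option (Fin σ.m)) (x : ZMod p → Fin (arP σ M s) → V), (∀ i, relP 𝔸 M s (x i)) →
    (∀ i j a b, x i a = x i b ↔ x j a = x j b) →
    ∃ y, relP 𝔸 M s y ∧ ∀ a b, (y a = y b ↔ x 0 a = x 0 b) ∧
      (x 0 a ≠ x 0 b → c (y a) (y b) = w (fun i => c (x i a) (x i b)))

end defs

end Pool.Agent.H44.EQ
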