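import Pool.Agent.H44.EQ.Asm
import Pool.Agent.H57.EQ.Defs

/-!
# The binary injection in the language of `Pool.Agent.H57.EQ`
-/

set_option autoImplicit false
set_option linter.unusedVariables false

namespace Pool.Agent.H44.EQ

open Pool.Agent.H68.BP Pool.Agent.H58.SF Pool.Agent.H53.GC Pool.Agent.H53.NR Pool.Agent.H57.EQ
open Classical Function

section glue

variable {V X : Type} {σ : Sig}

theorem ceq_cD {c : V → V → Option X} (fr : X) (hc : Col c) (x y : V) :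
    ceq (cD c fr) x y = c x y := by
  unfold ceq cD
  split_ifs with h
  · exact ((hc.none_iff x y).2 h).symm
  · cases hcxy : c x y with
    | none => exact absurd ((hc.none_iff x y).1 hcxy) h
    | some t => rfl

theorem cD_of_ne {c : V → V → Option X} (fr : X) (hc : Col c) {x y : V} (h : x ≠ y) :
    c x y = some (cD c fr x y) := by
  rw [← ceq_cD fr hc x y]
  simp [ceq, h]

theorem cD_self {c : V → V → Option X} (fr : X) (hc : Col c) (x : V) : cD c fr x x = fr := by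
  simp [cD, (hc.none_iff x x).2 rfl]

theorem cD_symm {c : V → V → Option X} (fr : X) (hc : Col c) (x y : V) :
    cD c fr x y = cD c fr y x := by
  simp [cD, hc.symm x y]

theorem SetE_of_Stp [LinearOrder V] {𝔸 : Str σ V} {M : ℕ} {c : V → V → Option X} {fr : X}
    (hs : Stp 𝔸 M c fr) : SetE 𝔸 M (cD c fr) fr := by
  refine ⟨hs.fin, ?_, hs.three, cD_symm fr hs.col, cD_self fr hs.col, ?_, ?_⟩
  · obtain ⟨x, y, -⟩ := hs.col.surj fr
    exact ⟨x⟩
  · intro n d hd
    have hdd : ∀ i, d i i = fr := by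
      intro i
      obtain ⟨v, hv⟩ := hd 1 (fun _ => i) (by have := hs.three; omega)
        (Subsingleton.strictMono _) (fun a b hab => absurd hab (by
          rw [Subsingleton.elim a b]; exact lt_irrefl _))
      have h1 := hv 0 0 le_rfl
      rw [cD_self fr hs.col] at h1
      exact h1.symm
    obtain ⟨f, hf, hc⟩ := hs.uni n d (by
      intro m s hm hs' hfr
      obtain ⟨v, hv⟩ := hd m s hm hs' hfr
      refine ⟨v, fun i j hij => ?_⟩
      have h1 := hv i j hij.le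
      have hne : v i ≠ v j := by
        intro he
        rw [he, cD_self fr hs.col] at h1
        exact hfr i j hij h1.symm
      rw [cD_of_ne fr hs.col hne, h1])
    refine ⟨f, hf, fun i j hij => ?_⟩
    rcases hij.lt_or_eq with h | h
    · simp [cD, hc i j h]
    · subst h
      rw [cD_self fr hs.col, hdd]
  · intro l x y hx hxy
    refine hs.inv l x y hx fun a b => ?_
    rw [← ceq_cD fr hs.col, ← ceq_cD fr hs.col (x a)]
    exact (hxy a b).symm

theorem PolMap_of_Olm [LinearOrder V] {𝔸 : Str σ V} {M : ℕ} {c : V → V → Option X} {fr : X}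
    (hs : Stp 𝔸 M c fr) {h : (Fin 6 → V) → (Fin 6 → V) → Option X} (hh : Olm 𝔸 c h) :
    PolMap 𝔸 M (cD c fr) (Fin 6) h := by
  refine ⟨fun v => ?_, fun s v hv => ?_⟩
  · obtain ⟨ψ, -, hψ⟩ := hh.comb Unit (fun i _ => v i)
    rw [← hψ () ()]
    exact (hs.col.none_iff _ _).2 rfl
  · obtain ⟨ψ, hψ, hc⟩ := hh.comb (Fin (arP σ M s)) (fun i a => v a i)
    refine ⟨ψ, ?_, fun a b => ?_⟩
    · cases s with
      | none => trivial
      | some l => exact hψ l (fun a => a) hv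
    · rw [ceq_cD fr hs.col, hc]

theorem TInv_of_Olm [LinearOrder V] {𝔸 : Str σ V} {M : ℕ} {c : V → V → Option X} {fr : X}
    (hs : Stp 𝔸 M c fr) {h : (Fin 6 → V) → (Fin 6 → V) → Option X} (hh : Olm 𝔸 c h) :
    TInv (cD c fr) h := by
  intro v w v' w' hST
  refine hh.tinv v w v' w' fun i j => ⟨(hST i j).1, ?_⟩
  rcases lt_trichotomy (Sum.elim v w i) (Sum.elim v w j) with h1 | h1 | h1
  · have h2 := (hST i j).1.1 h1
    rw [cD_of_ne fr hs.col h1.ne, cD_of_ne fr hs.col h2.ne, (hST i j).2 h1.le]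
  · have h2 : Sum.elim v' w' i = Sum.elim v' w' j := by
      apply le_antisymm
      · exact not_lt.1 fun h' => by
          have := (hST j i).1.2 h'
          rw [h1] at this
          exact lt_irrefl _ this
      · exact not_lt.1 fun h' => by
          have := (hST i j).1.2 h'
          rw [h1] at this
          exact lt_irrefl _ this
    rw [(hs.col.none_iff _ _).2 h1, (hs.col.none_iff _ _).2 h2]
  · have h2 := (hST j i).1.1 h1
    rw [cD_of_ne fr hs.col h1.ne', cD_of_ne fr hs.col h2.ne', cD_symm fr hs.col,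
      (hST j i).2 h1.le, cD_symm fr hs.col]

theorem not_Const [LinearOrder V] {𝔸 : Str σ V} {M : ℕ} {c : V → V → Option X} {fr : X}
    (hs : Stp 𝔸 M c fr) (h : ¬ ConstHom 𝔸) : ¬ Const 𝔸 := by
  rintro ⟨a, ha⟩
  refine h fun l x hx v => hs.inv l (fun _ => a) (fun _ => v) (ha l x hx) fun i j => ?_
  rw [(hs.col.none_iff _ _).2 rfl, (hs.col.none_iff _ _).2 rfl]

theorem CycPol_of_Dd [LinearOrder V] {𝔸 : Str σ V} {M : ℕ} {c : V → V → Option X} {fr : X}
    (hs : Stp 𝔸 M c fr) {p : ℕ} [NeZero p] {f : (ZMod p → X) → X} (hf : Dd 𝔸 c p f) :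
    CycPol 𝔸 M (cD c fr) p f := by
  refine ⟨hf.1, fun s x hx hk => ?_⟩
  let S : Setoid (Fin (arP σ M s)) := Setoid.ker (x 0)
  have hr : ∀ a b, (Quotient.mk S a = Quotient.mk S b) ↔ x 0 a = x 0 b := fun a b =>
    ⟨fun h => Quotient.exact h, fun h => Quotient.sound h⟩
  obtain ⟨ψ, hi, hψ, hq⟩ := hf.2 (Quotient S)
    (fun i => Quotient.lift (x i) fun a b hab => (hk 0 i a b).1 hab) (by
      intro i u w
      induction u using Quotient.inductionOn with
      | _ a =>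
        induction w using Quotient.inductionOn with
        | _ b =>
          intro hab
          exact (hr a b).2 ((hk 0 i a b).2 hab))
  refine ⟨fun a => ψ (Quotient.mk S a), ?_, fun a b => ⟨?_, ?_⟩⟩
  · cases s with
    | none => trivial
    | some l => exact hψ l (fun a => Quotient.mk S a) hx
  · rw [hi.eq_iff, hr]
  · intro hab
    have h1 := hq (Quotient.mk S a) (Quotient.mk S b) (fun i => cD c fr (x i a) (x i b))
      (fun i => cD_of_ne fr hs.col fun he => hab ((hk 0 i a b).2 he))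
    simp [cD, h1]

theorem CycPol_all [LinearOrder V] {𝔸 : Str σ V} {M : ℕ} {c : V → V → Option X} {fr : X}
    (hs : Stp 𝔸 M c fr) (hf : DdAll 𝔸 c) (P₀ : ℕ) :
    ∃ (p : ℕ) (w : (ZMod p → X) → X), P₀ ≤ p ∧ Odd p ∧ CycPol 𝔸 M (cD c fr) p w := by
  obtain ⟨N, hN⟩ := hf
  obtain ⟨p, hp, hpp⟩ := Nat.exists_infinite_primes (max (N + 1) (max P₀ 3))
  have h1 : N + 1 ≤ p := le_trans (le_max_left _ _) hp
  have h2 : P₀ ≤ p := le_trans (le_trans (le_max_left _ _) (le_max_right _ _)) hp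
  have h3 : 3 ≤ p := le_trans (le_trans (le_max_right _ _) (le_max_right _ _)) hp
  obtain ⟨f, hf⟩ := hN p hpp (by omega)
  have : NeZero p := ⟨hpp.ne_zero⟩
  exact ⟨p, f, h2, hpp.odd_of_ne_two (by omega), CycPol_of_Dd hs hf⟩

theorem comb_bin (F : Prop → X → X → X) (lam rho : X → X) (s : Prop) (e : Bool)
    (he : (e = true) ↔ s) (a b : Option X) :
    comb F lam rho s a b = bin (fun e => F (e = true)) rho lam e a b := by
  have : s = (e = true) := propext he.symm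
  subst this
  cases a <;> cases b <;> rfl

theorem tou_of_tour {T : V → V → Bool} (hT : Tour T) : Tou (fun u v => T u v = true) := by
  intro u v huv
  have h := hT u v huv
  beta_reduce
  rw [h]
  cases T u v
  · simp
  · simp

theorem BV_of_TouInj [LinearOrder V] (hRLZ : T_RLZ) {𝔸 : Str σ V} {M : ℕ}
    {c : V → V → Option X} {fr : X} (hs : Stp 𝔸 M c fr) {F : Prop → X → X → X} {lam rho : X → X}
    (hF : TouInj 𝔸 M (cD c fr) F lam rho) :
    BV Tour 𝔸 c (fun e => F (e = true)) rho lam := by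
  intro W _ G T hT
  have hE := SetE_of_Stp hs
  -- the combination on tuples
  have key : ∀ (s : Option (Fin σ.m)) (p : Fin (arP σ M s) → W),
      relP 𝔸 M s (fun a => G 0 (p a)) → relP 𝔸 M s (fun a => G 1 (p a)) →
      ∃ z, relP 𝔸 M s z ∧ ∀ a b, ceq (cD c fr) (z a) (z b) =
        bin (fun e => F (e = true)) rho lam
          (T 0 (G 0 (p a)) (G 0 (p b)) == T 1 (G 1 (p a)) (G 1 (p b)))
          (c (G 0 (p a)) (G 0 (p b))) (c (G 1 (p a)) (G 1 (p b))) := by
    intro s p h0 h1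
    obtain ⟨z, hz, hz'⟩ := hF s (fun a => G 0 (p a)) (fun a => G 1 (p a))
      (fun u v => T 0 u v = true) (fun u v => T 1 u v = true)
      (tou_of_tour (hT 0)) (tou_of_tour (hT 1)) h0 h1
    refine ⟨z, hz, fun a b => ?_⟩
    rw [hz' a b, ceq_cD fr hs.col, ceq_cD fr hs.col]
    refine comb_bin F lam rho _ _ ?_ _ _
    cases T 0 (G 0 (p a)) (G 0 (p b)) <;> cases T 1 (G 1 (p a)) (G 1 (p b)) <;> simp
  obtain ⟨ψ, hψ⟩ := hRLZ σ V X 𝔸 M (cD c fr) fr hE W (fun u w =>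
      bin (fun e => F (e = true)) rho lam (T 0 (G 0 u) (G 0 w) == T 1 (G 1 u) (G 1 w))
        (c (G 0 u) (G 0 w)) (c (G 1 u) (G 1 w))) (by
    intro p
    obtain ⟨z, -, hz⟩ := key none p trivial trivial
    exact ⟨z, hz⟩)
  refine ⟨ψ, ?_, fun u w => ?_⟩
  · intro l z hz
    obtain ⟨y, hy, hy'⟩ := key (some l) z (hz 0) (hz 1)
    refine hE.typ l y _ hy fun a b => ?_
    rw [hψ]
    exact hy' a b
  · rw [← hψ u w, ceq_cD fr hs.col]

end glue

/-- The tournament injection from a canonical Olšák map. -/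
theorem asm_TOU' (hINJ : T_INJ) (hCNG : T_CNG) (hTRF : T_TRF) (hLMT : T_LMT)
    (hLIN : T_LIN) (hTO1 : T_TO1) (hTO2 : T_TO2) {σ : Sig} {V X : Type} [LinearOrder V]
    {𝔸 : Str σ V} {M : ℕ} {c : V → V → X} {N : X} (hs : SetE 𝔸 M c N) (hC : ¬ Const 𝔸)
    (hR : RamseyFin c) (h : (Fin 6 → V) → (Fin 6 → V) → Option X) (hp : PolMap 𝔸 M c (Fin 6) h)
    (ht : TInv c h)
    (hex : ∀ (r : Fin 3) (x y x' y' : V), h (pat r x y) (pat r x' y') =
      h (pat 0 x y) (pat 0 x' y'))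
    (hw : ∀ P₀ : ℕ, ∃ (p : ℕ) (w : (ZMod p → X) → X), P₀ ≤ p ∧ Odd p ∧ CycPol 𝔸 M c p w) :
    ∃ F lam rho, TouInj 𝔸 M c F lam rho := by
  have hI := hINJ σ V X 𝔸 M c N hs hC h hp ht hex
  obtain ⟨h2, hp2, hi2⟩ := hLMT σ V X 𝔸 M c N hs hI
  have := hs.fin
  obtain ⟨h3, ht3, hl3⟩ := hCNG V X (Fin 2) (Option X) c hR h2
  have hp3 := hTRF σ V X 𝔸 M c N hs (Fin 2) h2 h3 hp2 hl3
  have hi3 : ∀ v w, v ≠ w → h3 v w ≠ none := by
    intro v w hvw hn
    obtain ⟨g, hg1, hg2, hg3⟩ := hl3 (Finset.univ.image v ∪ Finset.univ.image w)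
    rw [hg3 v w (fun i => by simp) (fun i => by simp)] at hn
    refine hi2 _ _ ?_ hn
    intro he
    apply hvw
    funext i
    have hi : g (v i) = g (w i) := congrFun he i
    rcases lt_trichotomy (v i) (w i) with h' | h' | h'
    · exact absurd hi (ne_of_lt (hg1 _ (by simp) _ (by simp) h'))
    · exact h'
    · exact absurd hi.symm (ne_of_lt (hg1 _ (by simp) _ (by simp) h'))
  obtain ⟨F, lam, rho, hF⟩ := hLIN σ V X 𝔸 M c N hs h3 hp3 ht3 hi3
  obtain ⟨F', lam', rho', hF'⟩ := hTO1 σ V X 𝔸 M c N hs hw F lam rho hF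
  exact hTO2 σ V X 𝔸 M c N hs hw F' lam' rho' hF'

/-- Target: the binary injection in the language of `Pool.Agent.H57.EQ`. -/
def T_NBV : Prop :=
  ∀ (σ : Sig) (V X : Type) [LinearOrder V] (𝔸 : Str σ V) (M : ℕ) (c : V → V → Option X) (fr : X),
    Stp 𝔸 M c fr → ∀ h, Olm 𝔸 c h → ¬ ConstHom 𝔸 → DdAll 𝔸 c →
    ∃ t2 t10 t01, BV Tour 𝔸 c t2 t10 t01

/-- Target: blocks without common elements. -/
def T_NNC : Prop :=
  ∀ (σ : Sig) (V X : Type) [LinearOrder V] (𝔸 : Str σ V) (M : ℕ) (c : V → V → Option X) (fr : X),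
    Stp 𝔸 M c fr → ∀ h, Olm 𝔸 c h → ¬ ConstHom 𝔸 →
    ∀ z z' : Fin 6 → V, (∀ l l', z l ≠ z' l') → h z z' ≠ none

/-- Target: the canonical Olšák map. -/
def T_NOL : Prop :=
  ∀ (σ : Sig) (V X : Type) [LinearOrder V] (𝔸 : Str σ V) (M : ℕ) (c : V → V → Option X) (fr : X),
    Stp 𝔸 M c fr → Oligo 𝔸 → ¬ PPConstructsK3 𝔸 → ∃ h, Olm 𝔸 c h

theorem glue_NBV (hINJ : T_INJ) (hCNG : T_CNG) (hTRF : T_TRF) (hLMT : T_LMT)
    (hLIN : T_LIN) (hTO1 : T_TO1) (hTO2 : T_TO2) (hRLZ : T_RLZ) (hNR3 : T_NR3) : T_NBV := by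
  intro σ V X _ 𝔸 M c fr hs h hh hC hD
  have hE := SetE_of_Stp hs
  have := hs.fin
  obtain ⟨F, lam, rho, hF⟩ := asm_TOU' hINJ hCNG hTRF hLMT hLIN hTO1 hTO2 hE (not_Const hs hC)
    (hNR3 V X (cD c fr) _ M hE.univ) h (PolMap_of_Olm hs hh) (TInv_of_Olm hs hh) hh.exact
    (CycPol_all hs hD)
  exact ⟨_, _, _, BV_of_TouInj hRLZ hs hF⟩

theorem glue_NNC (hNC : T_NC) : T_NNC := by
  intro σ V X _ 𝔸 M c fr hs h hh hC z z' hz
  exact hNC σ V X 𝔸 M (cD c fr) fr (SetE_of_Stp hs) (not_Const hs hC) h (PolMap_of_Olm hs hh)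
    (TInv_of_Olm hs hh) z z' hz

theorem glue_NOL (hHHH : T_HHH) (hRLZ : T_RLZ) (hNR3 : T_NR3) : T_NOL := by
  intro σ V X _ 𝔸 M c fr hs hO hK
  have hE := SetE_of_Stp hs
  have := hs.fin
  obtain ⟨h, hp, ht, hex⟩ := hHHH σ V X 𝔸 M (cD c fr) fr hE hs.cnt hO
    (hNR3 V X (cD c fr) _ M hE.univ) hK
  refine ⟨h, ?_, hex, ?_⟩
  · intro v w v' w' hS
    refine ht v w v' w' fun i j => ⟨(hS i j).1, fun _ => ?_⟩
    simp only [cD, (hS i j).2]
  · intro W _ G
    obtain ⟨ψ, hψ⟩ := hRLZ σ V X 𝔸 M (cD c fr) fr hE W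
      (fun u w => h (fun i => G i u) (fun i => G i w)) (by
      intro p
      obtain ⟨x, -, hx⟩ := hp.rel none (fun a i => G i (p a)) (fun _ => trivial)
      exact ⟨x, hx⟩)
    refine ⟨ψ, ?_, fun u w => ?_⟩
    · intro l z hz
      obtain ⟨x, hx, hx'⟩ := hp.rel (some l) (fun a i => G i (z a)) hz
      refine hE.typ l x _ hx fun a b => ?_
      rw [hx' a b, hψ]
    · rw [← hψ u w, ceq_cD fr hs.col]

end Pool.Agent.H44.EQ
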