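import Pool.Agent.H44.EQ.Defs
import Pool.Agent.H53.NR.Targets

/-!
# Targets: the binary injection
-/

set_option autoImplicit false
set_option linter.unusedVariables false

namespace Pool.Agent.H44.EQ

open Pool.Agent.H68.BP Pool.Agent.H58.SF Pool.Agent.H53.GC Pool.Agent.H53.NR
open Classical

/-! ### Configurations -/

/-- Finite coloured orders whose sets without free pairs are realized embed into `V`. The order of
`W` is given by the injective map `rk`. -/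
def T_CFG : Prop :=
  ∀ (σ : Sig) (V X : Type) [LinearOrder V] (𝔸 : Str σ V) (M : ℕ) (c : V → V → X) (N : X),
    SetE 𝔸 M c N → ∀ (W R : Type) [Finite W] [LinearOrder R] (rk : W → R) (d : W → W → X),
      Function.Injective rk → (∀ x y, d x y = d y x) → (∀ x, d x x = N) →
      (∀ K : Set W, (∀ x ∈ K, ∀ y ∈ K, x ≠ y → d x y ≠ N) →
        ∃ u : W → V, (∀ x ∈ K, ∀ y ∈ K, u x = u y → x = y) ∧
          ∀ x ∈ K, ∀ y ∈ K, x ≠ y → c (u x) (u y) = d x y) →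
      ∃ f : W → V, (∀ x y, rk x < rk y → f x < f y) ∧ ∀ x y, c (f x) (f y) = d x y

/-- Realization of families of types all of whose parts with `M` elements are realized. -/
def T_RLZ : Prop :=
  ∀ (σ : Sig) (V X : Type) [LinearOrder V] (𝔸 : Str σ V) (M : ℕ) (c : V → V → X) (N : X),
    SetE 𝔸 M c N → ∀ (P : Type) [Finite P] (φ : P → P → Option X),
      (∀ p : Fin M → P, ∃ x : Fin M → V, ∀ a b, ceq c (x a) (x b) = φ (p a) (p b)) →
      ∃ γ : P → V, ∀ p p', ceq c (γ p) (γ p') = φ p p'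

/-- A polymorphism, seen through the types, has consistent equalities. -/
def T_EQV : Prop :=
  ∀ (σ : Sig) (V X : Type) [LinearOrder V] (𝔸 : Str σ V) (M : ℕ) (c : V → V → X) (N : X),
    SetE 𝔸 M c N → ∀ (I : Type) (h : (I → V) → (I → V) → Option X), PolMap 𝔸 M c I h →
      (∀ v w, h v w = h w v) ∧ ∀ v w z, h v w = none → h v z = h w z

/-! ### Blocks without common elements -/

/-- `u` and `u'` are two copies of the block `z`, next to each other and free from each other. -/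
structure Twin {V X : Type} [LinearOrder V] (c : V → V → X) (N : X) (z u u' : Fin 6 → V) :
    Prop where
  ord : ∀ l l', (u l < u l' ↔ z l < z l') ∧ (u' l < u' l' ↔ z l < z l') ∧
    (u l < u' l' ↔ z l ≤ z l') ∧ (u' l < u l' ↔ z l < z l')
  col : ∀ l l', c (u l) (u l') = c (z l) (z l') ∧ c (u' l) (u' l') = c (z l) (z l') ∧
    c (u l) (u' l') = N

/-- Two blocks without common elements which have the same value: free twins. -/
def T_NC1 : Prop :=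
  ∀ (σ : Sig) (V X : Type) [LinearOrder V] (𝔸 : Str σ V) (M : ℕ) (c : V → V → X) (N : X),
    SetE 𝔸 M c N → ∀ h : (Fin 6 → V) → (Fin 6 → V) → Option X, PolMap 𝔸 M c (Fin 6) h →
      TInv c h → ∀ z z' : Fin 6 → V, (∀ l l', z l ≠ z' l') → h z z' = none →
      ∃ u u', Twin c N z' u u' ∧ h u u' = none

/-- Twins with the same value: a constant endomorphism. -/
def T_NC2 : Prop :=
  ∀ (σ : Sig) (V X : Type) [LinearOrder V] (𝔸 : Str σ V) (M : ℕ) (c : V → V → X) (N : X),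
    SetE 𝔸 M c N → ∀ h : (Fin 6 → V) → (Fin 6 → V) → Option X, PolMap 𝔸 M c (Fin 6) h →
      TInv c h → ∀ z u u' : Fin 6 → V, Twin c N z u u' → h u u' = none → Const 𝔸

/-- Blocks without common elements have different values. -/
def T_NC : Prop :=
  ∀ (σ : Sig) (V X : Type) [LinearOrder V] (𝔸 : Str σ V) (M : ℕ) (c : V → V → X) (N : X),
    SetE 𝔸 M c N → ¬ Const 𝔸 → ∀ h : (Fin 6 → V) → (Fin 6 → V) → Option X,
      PolMap 𝔸 M c (Fin 6) h → TInv c h → ∀ z z' : Fin 6 → V, (∀ l l', z l ≠ z' l') →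
      h z z' ≠ none

/-! ### The determining positions -/

/-- Chains: if two blocks of the shape `κ`, which differ at the position `l₀`, have the same value,
then all blocks of this shape which differ only there have the same value. -/
def T_CHN : Prop :=
  ∀ (σ : Sig) (V X : Type) [LinearOrder V] (𝔸 : Str σ V) (M : ℕ) (c : V → V → X) (N : X),
    SetE 𝔸 M c N → ∀ h : (Fin 6 → V) → (Fin 6 → V) → Option X, PolMap 𝔸 M c (Fin 6) h →
      TInv c h → ∀ (κ : Fin 6 → ℕ) (z z' : Fin 6 → V) (l₀ : Fin 6), ZA c N κ z z' →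
      h z z' = none → z l₀ ≠ z' l₀ →
      ∀ w w', ZA c N κ w w' → (∀ l, κ l ≠ κ l₀ → w l = w' l) → h w w' = none

/-- Existence of the set of the determining positions. -/
def T_JEX : Prop :=
  ∀ (σ : Sig) (V X : Type) [LinearOrder V] (𝔸 : Str σ V) (M : ℕ) (c : V → V → X) (N : X),
    SetE 𝔸 M c N → ∀ h : (Fin 6 → V) → (Fin 6 → V) → Option X, PolMap 𝔸 M c (Fin 6) h →
      TInv c h → ∀ κ : Fin 6 → ℕ, ∃ J : Set (Fin 6), (∀ l l', κ l = κ l' → (l ∈ J ↔ l' ∈ J)) ∧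
        JSet c N h κ J

/-- There are determining positions. -/
def T_JNE : Prop :=
  ∀ (σ : Sig) (V X : Type) [LinearOrder V] (𝔸 : Str σ V) (M : ℕ) (c : V → V → X) (N : X),
    SetE 𝔸 M c N → ¬ Const 𝔸 → ∀ h : (Fin 6 → V) → (Fin 6 → V) → Option X,
      PolMap 𝔸 M c (Fin 6) h → TInv c h → ∀ (κ : Fin 6 → ℕ) (J : Set (Fin 6)),
      JSet c N h κ J → J.Nonempty

/-- Two determining positions give binary injections. -/
def T_TWO : Prop :=
  ∀ (σ : Sig) (V X : Type) [LinearOrder V] (𝔸 : Str σ V) (M : ℕ) (c : V → V → X) (N : X),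
    SetE 𝔸 M c N → ∀ h : (Fin 6 → V) → (Fin 6 → V) → Option X, PolMap 𝔸 M c (Fin 6) h →
      TInv c h → ∀ (κ : Fin 6 → ℕ) (J : Set (Fin 6)), JSet c N h κ J →
      ∀ l l', l ∈ J → l' ∈ J → κ l ≠ κ l' → Inj2 𝔸

/-- Blocks with different determining entries have different values. -/
def T_SEP : Prop :=
  ∀ (σ : Sig) (V X : Type) [LinearOrder V] (𝔸 : Str σ V) (M : ℕ) (c : V → V → X) (N : X),
    SetE 𝔸 M c N → ¬ Const 𝔸 → ∀ h : (Fin 6 → V) → (Fin 6 → V) → Option X,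
      PolMap 𝔸 M c (Fin 6) h → TInv c h → ∀ (κ κ' : Fin 6 → ℕ) (J J' : Set (Fin 6)),
      JSet c N h κ J → JSet c N h κ' J' → (∀ l l', κ l = κ l' → (l ∈ J ↔ l' ∈ J)) →
      (∀ l l', κ' l = κ' l' → (l ∈ J' ↔ l' ∈ J')) → ∀ v v', ZA c N κ v v → ZA c N κ' v' v' → (∀ l ∈ J, ∀ l' ∈ J', v l ≠ v' l') →
      h v v' ≠ none

/-! ### The minimal set of pairs which cannot be separated -/

/-- Two binary polymorphisms on a finite set with complementary equalities. -/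
def T_MIN : Prop :=
  ∀ (σ : Sig) (V : Type) (𝔸 : Str σ V), ¬ Inj2 𝔸 →
    ∃ (n : ℕ) (q : Fin n → V) (γ₀ γ₁ : Fin n × Fin n → V) (p₀ p₀' p₁ p₁' : Fin n × Fin n)
      (U : Set ((Fin n × Fin n) × (Fin n × Fin n))), Function.Injective q ∧
      BinPol 𝔸 q γ₀ ∧ BinPol 𝔸 q γ₁ ∧ γ₀ p₀ = γ₀ p₀' ∧ γ₁ p₀ ≠ γ₁ p₀' ∧ γ₁ p₁ = γ₁ p₁' ∧
      γ₀ p₁ ≠ γ₀ p₁' ∧ (∀ γ, BinPol 𝔸 q γ → ∃ u ∈ U, γ u.1 = γ u.2) ∧
      ∀ u ∈ U, u = (p₀, p₀') ∨ u = (p₁, p₁') ∨ (γ₀ u.1 ≠ γ₀ u.2 ∧ γ₁ u.1 ≠ γ₁ u.2)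

/-- Composition of a polymorphism with copies of binary polymorphisms. -/
def T_CMP : Prop :=
  ∀ (σ : Sig) (V X : Type) [LinearOrder V] (𝔸 : Str σ V) (M : ℕ) (c : V → V → X) (N : X),
    SetE 𝔸 M c N → ∀ (I : Type) (h : (I → V) → (I → V) → Option X), PolMap 𝔸 M c I h →
      ∀ (n : ℕ) (q : Fin n → V) (γ : I → Fin n × Fin n → V) (z : Fin n × Fin n → I → V),
      (∀ l, BinPol 𝔸 q (γ l)) →
      (∀ l p p', ceq c (z p l) (z p' l) = ceq c (γ l p) (γ l p')) →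
      ∃ δ : Fin n × Fin n → V, BinPol 𝔸 q δ ∧ ∀ p p', δ p = δ p' ↔ h (z p) (z p') = none

/-- The value at the position `l`: of `a` for `l ∈ S`, of `b` otherwise. -/
noncomputable def sel {T : Type} (S : Set (Fin 6)) (a b : T) (l : Fin 6) : T :=
  if l ∈ S then a else b

/-- The shape: the shared positions `T` have the level `e l`, the others the level `l + 1`. -/
noncomputable def kap (e : Fin 6 → ℕ) (T : Set (Fin 6)) (l : Fin 6) : ℕ :=
  if l ∈ T then e l else l.val + 1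

/-- Blocks which consist of copies of `γ₀` (in the positions `l ∈ S`) and of `γ₁` (in the other
positions); different copies are free from each other, but they share the elements which belong to
`s₀` and `s₁`. -/
def T_CON : Prop :=
  ∀ (σ : Sig) (V X : Type) [LinearOrder V] (𝔸 : Str σ V) (M : ℕ) (c : V → V → X) (N : X),
    SetE 𝔸 M c N → ∀ (P : Type) [Finite P] (γ₀ γ₁ : P → V) (e : Fin 6 → ℕ) (S : Set (Fin 6))
      (s₀ s₁ : Set V), (∀ l, e l = 0 ∨ e l = 7) → (∀ l l', (l ∈ S ↔ l' ∈ S) ↔ e l = e l') →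
      ∃ z : P → Fin 6 → V,
        (∀ l p p', ceq c (z p l) (z p' l) = ceq c (sel S γ₀ γ₁ l p) (sel S γ₀ γ₁ l p')) ∧
        (∀ p, ZA c N (kap e {l | sel S γ₀ γ₁ l p ∈ sel S s₀ s₁ l}) (z p) (z p)) ∧
        ∀ p p' l l', z p l = z p' l' ↔ ((l ∈ S ↔ l' ∈ S) ∧
          sel S γ₀ γ₁ l p = sel S γ₀ γ₁ l' p' ∧ (l = l' ∨ sel S γ₀ γ₁ l p ∈ sel S s₀ s₁ l))

/-- The special blocks: their determining letter does not depend on the pattern `r`. -/
def T_LTR : Prop :=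
  ∀ (σ : Sig) (V X : Type) [LinearOrder V] (𝔸 : Str σ V) (M : ℕ) (c : V → V → X) (N : X),
    SetE 𝔸 M c N → ¬ Const 𝔸 → ∀ h : (Fin 6 → V) → (Fin 6 → V) → Option X,
      PolMap 𝔸 M c (Fin 6) h → TInv c h →
      (∀ (r : Fin 3) (x y x' y' : V), h (pat r x y) (pat r x' y') = h (pat 0 x y) (pat 0 x' y')) →
      ∀ (J : Fin 3 → Set (Fin 6)), (∀ r, JSet c N h (pat r 0 7) (J r)) →
      (∀ r l l', pat r (0 : ℕ) 7 l = pat r (0 : ℕ) 7 l' → (l ∈ J r ↔ l' ∈ J r)) →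
      (∀ r, ∀ l ∈ J r, ∀ l' ∈ J r, pat r (0 : ℕ) 7 l = pat r (0 : ℕ) 7 l') →
      ∀ i₀ : Fin 6, ∃ r, i₀ ∉ J r ∧ ∀ l l', (l ∈ J r ↔ l' ∈ J r) ↔
        pat r (0 : ℕ) 7 l = pat r (0 : ℕ) 7 l'

/-- The choice of the shared elements: for the two pairs `(p₀, p₀')` and `(p₁, p₁')` the determining
entries become different. -/
def T_CAS : Prop :=
  ∀ (V P : Type) (γ₀ γ₁ : P → V) (p₀ p₀' p₁ p₁' : P) (e : Fin 6 → ℕ) (S : Set (Fin 6))
    (i₀ : Fin 6) (J : Set (Fin 6) → Set (Fin 6)), (∀ l, e l = 0 ∨ e l = 7) →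
    (∀ l l', (l ∈ S ↔ l' ∈ S) ↔ e l = e l') → i₀ ∉ S →
    (∀ T l l', kap e T l = kap e T l' → (l ∈ J T ↔ l' ∈ J T)) →
    (∀ T, ∀ l ∈ J T, ∀ l' ∈ J T, kap e T l = kap e T l') → J ∅ = {i₀} → J Set.univ = S →
    γ₀ p₀ = γ₀ p₀' → γ₁ p₀ ≠ γ₁ p₀' → γ₁ p₁ = γ₁ p₁' → γ₀ p₁ ≠ γ₀ p₁' →
    ∃ s₀ s₁ : Set V, ∀ u ∈ ({(p₀, p₀'), (p₁, p₁')} : Set (P × P)),
      ∀ l ∈ J {l | sel S γ₀ γ₁ l u.1 ∈ sel S s₀ s₁ l},
      ∀ l' ∈ J {l | sel S γ₀ γ₁ l u.2 ∈ sel S s₀ s₁ l},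
        ¬ ((l ∈ S ↔ l' ∈ S) ∧ sel S γ₀ γ₁ l u.1 = sel S γ₀ γ₁ l' u.2 ∧
          (l = l' ∨ sel S γ₀ γ₁ l u.1 ∈ sel S s₀ s₁ l))

/-- Binary injections. -/
def T_INJ : Prop :=
  ∀ (σ : Sig) (V X : Type) [LinearOrder V] (𝔸 : Str σ V) (M : ℕ) (c : V → V → X) (N : X),
    SetE 𝔸 M c N → ¬ Const 𝔸 → ∀ h : (Fin 6 → V) → (Fin 6 → V) → Option X,
      PolMap 𝔸 M c (Fin 6) h → TInv c h →
      (∀ (r : Fin 3) (x y x' y' : V), h (pat r x y) (pat r x' y') = h (pat 0 x y) (pat 0 x' y')) →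
      Inj2 𝔸

/-! ### Canonization -/

/-- On each finite set the map `h'` is a copy of the map `h`. -/
def Lift {V X I Z : Type} [LinearOrder V] (c : V → V → X) (h h' : (I → V) → (I → V) → Z) : Prop :=
  ∀ K : Finset V, ∃ g : V → V, (∀ x ∈ K, ∀ y ∈ K, x < y → g x < g y) ∧
    (∀ x ∈ K, ∀ y ∈ K, x ≤ y → c (g x) (g y) = c x y) ∧
    ∀ v w : I → V, (∀ i, v i ∈ K) → (∀ i, w i ∈ K) →
      h' v w = h (fun i => g (v i)) (fun i => g (w i))

/-- Canonization of maps on pairs of tuples. -/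
def T_CNG : Prop :=
  ∀ (V X I Z : Type) [LinearOrder V] [Finite X] [Finite I] [Finite Z] (c : V → V → X),
    RamseyFin c → ∀ h : (I → V) → (I → V) → Z, ∃ h' : (I → V) → (I → V) → Z, TInv c h' ∧
      Lift c h h'

/-- Copies of polymorphisms. -/
def T_TRF : Prop :=
  ∀ (σ : Sig) (V X : Type) [LinearOrder V] (𝔸 : Str σ V) (M : ℕ) (c : V → V → X) (N : X),
    SetE 𝔸 M c N → ∀ (I : Type) [Finite I] (h h' : (I → V) → (I → V) → Option X),
      PolMap 𝔸 M c I h → Lift c h h' → PolMap 𝔸 M c I h'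

/-- The canonical Olšák map. -/
def T_HHH : Prop :=
  ∀ (σ : Sig) (V X : Type) [LinearOrder V] (𝔸 : Str σ V) (M : ℕ) (c : V → V → X) (N : X),
    SetE 𝔸 M c N → Countable V → Oligo 𝔸 → RamseyFin c → ¬ PPConstructsK3 𝔸 →
    ∃ h : (Fin 6 → V) → (Fin 6 → V) → Option X, PolMap 𝔸 M c (Fin 6) h ∧ TInv c h ∧
      ∀ (r : Fin 3) (x y x' y' : V), h (pat r x y) (pat r x' y') = h (pat 0 x y) (pat 0 x' y')

/-- The limit of binary injections. -/
def T_LMT : Prop :=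
  ∀ (σ : Sig) (V X : Type) [LinearOrder V] (𝔸 : Str σ V) (M : ℕ) (c : V → V → X) (N : X),
    SetE 𝔸 M c N → Inj2 𝔸 → ∃ h : (Fin 2 → V) → (Fin 2 → V) → Option X,
      PolMap 𝔸 M c (Fin 2) h ∧ ∀ v w, v ≠ w → h v w ≠ none

/-- The types of a canonical binary injection. -/
def T_LIN : Prop :=
  ∀ (σ : Sig) (V X : Type) [LinearOrder V] (𝔸 : Str σ V) (M : ℕ) (c : V → V → X) (N : X),
    SetE 𝔸 M c N → ∀ h : (Fin 2 → V) → (Fin 2 → V) → Option X, PolMap 𝔸 M c (Fin 2) h →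
      TInv c h → (∀ v w, v ≠ w → h v w ≠ none) → ∃ F lam rho, LinInj 𝔸 M c F lam rho

/-! ### Tournaments -/

/-- Every tournament with `K` vertices is given by `p` linear orders such that the orders in which
`a` is below `b` form a cyclic interval of length `(p + 1) / 2` whenever `o a b`. -/
def T_ALW : Prop :=
  ∀ K : ℕ, ∃ P₀ : ℕ, ∀ p : ℕ, P₀ ≤ p → Odd p → ∀ o : Fin K → Fin K → Prop,
    (∀ a b, a ≠ b → (o a b ↔ ¬ o b a)) → ∃ rk : ZMod p → Fin K → ℕ,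
      (∀ i, Function.Injective (rk i)) ∧ ∀ a b, a ≠ b → o a b →
        ∃ j : ZMod p, ∀ i : ZMod p, rk i a < rk i b ↔ (i - j).val < (p + 1) / 2

/-- Tuples in arbitrary orders. -/
def T_ORD : Prop :=
  ∀ (σ : Sig) (V X : Type) [LinearOrder V] (𝔸 : Str σ V) (M : ℕ) (c : V → V → X) (N : X),
    SetE 𝔸 M c N → ∀ (m : ℕ) (x : Fin m → V) (R : Type) [LinearOrder R] (rk : V → R),
      (∀ a b, rk (x a) = rk (x b) → x a = x b) → ∃ x' : Fin m → V,
        (∀ a b, ceq c (x' a) (x' b) = ceq c (x a) (x b)) ∧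
        ∀ a b, x' a < x' b ↔ rk (x a) < rk (x b)

/-- The tournament injection: tournaments in the first coordinate. -/
def HalfInj {σ : Sig} {V X : Type} [LinearOrder V] (𝔸 : Str σ V) (M : ℕ) (c : V → V → X)
    (F : Prop → X → X → X) (lam rho : X → X) : Prop :=
  ∀ (s : Option (Fin σ.m)) (x y : Fin (arP σ M s) → V) (o : V → V → Prop), Tou o →
    relP 𝔸 M s x → relP 𝔸 M s y →
    ∃ z, relP 𝔸 M s z ∧ ∀ a b, ceq c (z a) (z b) =
      comb F lam rho (o (x a) (x b) ↔ y a < y b) (ceq c (x a) (x b)) (ceq c (y a) (y b))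

/-- From orders to tournaments in the first coordinate. -/
def T_TO1 : Prop :=
  ∀ (σ : Sig) (V X : Type) [LinearOrder V] (𝔸 : Str σ V) (M : ℕ) (c : V → V → X) (N : X),
    SetE 𝔸 M c N → (∀ P₀ : ℕ, ∃ (p : ℕ) (w : (ZMod p → X) → X), P₀ ≤ p ∧ Odd p ∧
      CycPol 𝔸 M c p w) → ∀ F lam rho, LinInj 𝔸 M c F lam rho →
      ∃ F' lam' rho', HalfInj 𝔸 M c F' lam' rho'

/-- From orders to tournaments in the second coordinate. -/
def T_TO2 : Prop :=
  ∀ (σ : Sig) (V X : Type) [LinearOrder V] (𝔸 : Str σ V) (M : ℕ) (c : V → V → X) (N : X),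
    SetE 𝔸 M c N → (∀ P₀ : ℕ, ∃ (p : ℕ) (w : (ZMod p → X) → X), P₀ ≤ p ∧ Odd p ∧
      CycPol 𝔸 M c p w) → ∀ F lam rho, HalfInj 𝔸 M c F lam rho →
      ∃ F' lam' rho', TouInj 𝔸 M c F' lam' rho'

/-- The tournament injection. -/
def T_TOU : Prop :=
  ∀ (σ : Sig) (V X : Type) [LinearOrder V] (𝔸 : Str σ V) (M : ℕ) (c : V → V → X) (N : X),
    SetE 𝔸 M c N → ¬ Const 𝔸 → Countable V → Oligo 𝔸 → RamseyFin c → ¬ PPConstructsK3 𝔸 →
    (∀ P₀ : ℕ, ∃ (p : ℕ) (w : (ZMod p → X) → X), P₀ ≤ p ∧ Odd p ∧ CycPol 𝔸 M c p w) →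
    ∃ F lam rho, TouInj 𝔸 M c F lam rho

end Pool.Agent.H44.EQ
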